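import Pool.Agent.Helper960.Clark.Q12
import Pool.Agent.Helper526.Sch.Units

/-!
# Clarkson-type inequalities for `n`-tuples of operators

For operators `A_0, ..., A_{n-1}` in the Schatten class `S_p` and the conjugate exponent `q` put
`L = n (∑ ‖A_j‖_p^p)^{q/p}` and `R = ‖∑ A_j‖_p^q + ∑_{j<k} ‖A_j - A_k‖_p^q`.  We prove `L ≤ R` for
`2 ≤ p < ∞` and `R ≤ L` for `1 < p ≤ 2`.  (For `0 < p < 1`, where `q < 0`, the inequality `R ≤ L`
fails.)

The map `T : (A_j) ↦ (∑ A_j, (A_j - A_k)_{j<k})` satisfies `T* T = n`, and its matrix entries are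
`0` and `±1`.  Hence the bilinear form `(X, Y) ↦ ⟨T X, Y⟩` is bounded by `√n` on `ℓ_2(S_2) × ℓ_2(S_2)`
and by `1` on `ℓ_1(S_1) × ℓ_1(S_∞)`.  In Schmidt decompositions of the operators this becomes a
statement on finite matrices of scalars, to which the three lines theorem applies; both inequalities
follow by duality and a limit.
-/

set_option autoImplicit false

open scoped InnerProductSpace ENNReal
open Finset

namespace Pool.Agent.Results.MP_5deb6a_an.ClarksonTuples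

universe u v

variable {ι : Type v} {H : Type u} [NormedAddCommGroup H] [InnerProductSpace ℂ H] [CompleteSpace H]

/-- `tr |A|^p = tr (A* A)^{p/2} ∈ [0, ∞]`, the trace of the positive operator `|A|^p`, computed in
the Hilbert basis `b`. -/
noncomputable def trPow (b : HilbertBasis ι ℂ H) (p : ℝ) (A : H →L[ℂ] H) : ℝ≥0∞ :=
  ∑' i, ENNReal.ofReal (RCLike.re ⟪b i, ((star A * A) ^ (p / 2) : H →L[ℂ] H) (b i)⟫_ℂ)

/-- `A` belongs to the Schatten class `S_p`: it is compact and `tr |A|^p < ∞`. -/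
def Schatten (b : HilbertBasis ι ℂ H) (p : ℝ) (A : H →L[ℂ] H) : Prop :=
  IsCompactOperator A ∧ trPow b p A < ∞

/-- The Schatten norm `‖A‖_p = (tr |A|^p)^{1/p}`. -/
noncomputable def nrm (b : HilbertBasis ι ℂ H) (p : ℝ) (A : H →L[ℂ] H) : ℝ :=
  (trPow b p A).toReal ^ (1 / p)

/-- `L = n (∑_j ‖A_j‖_p^p)^{q/p}` -/
noncomputable def LL (b : HilbertBasis ι ℂ H) (p q : ℝ) {n : ℕ} (A : Fin n → (H →L[ℂ] H)) : ℝ :=
  n * (∑ j, nrm b p (A j) ^ p) ^ (q / p)

/-- `R = ‖∑_j A_j‖_p^q + ∑_{j<k} ‖A_j - A_k‖_p^q` -/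
noncomputable def RR (b : HilbertBasis ι ℂ H) (p q : ℝ) {n : ℕ} (A : Fin n → (H →L[ℂ] H)) : ℝ :=
  nrm b p (∑ j, A j) ^ q +
    ∑ e ∈ univ.filter (fun e : Fin n × Fin n => e.1 < e.2), nrm b p (A e.1 - A e.2) ^ q

open Pool.Agent.Helper526.Sch Pool.Agent.Helper960.Clark

lemma nrm_rpow (b : HilbertBasis ι ℂ H) {p : ℝ} (r : ℝ) (A : H →L[ℂ] H) :
    nrm b p A ^ r = (trAbsPow b p A).toReal ^ (r / p) := by
  unfold nrm
  rw [← Real.rpow_mul ENNReal.toReal_nonneg, one_div_mul_eq_div]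
  rfl

lemma LL_eq (b : HilbertBasis ι ℂ H) {p : ℝ} (hp : 0 < p) (q : ℝ) {n : ℕ}
    (A : Fin n → (H →L[ℂ] H)) :
    LL b p q A = n * (∑ j, (trAbsPow b p (A j)).toReal) ^ (q / p) := by
  unfold LL
  congr 2
  refine Finset.sum_congr rfl fun j _ => ?_
  rw [nrm_rpow b, div_self hp.ne', Real.rpow_one]

lemma RR_eq (b : HilbertBasis ι ℂ H) {p : ℝ} (q : ℝ) {n : ℕ} (A : Fin n → (H →L[ℂ] H)) :
    RR b p q A = ∑ k, (trAbsPow b p (BB A k)).toReal ^ (q / p) := by
  unfold RR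
  rw [Fintype.sum_option]
  congr 1
  · rw [nrm_rpow b]
    have : BB A (none : KK n) = ∑ j, A j := by
      unfold BB
      refine Finset.sum_congr rfl fun i _ => ?_
      simp [tt]
    rw [this]
  · rw [Finset.sum_subtype (univ.filter (fun e : Fin n × Fin n => e.1 < e.2))
      (p := fun e => e.1 < e.2) (by simp) (fun e => nrm b p (A e.1 - A e.2) ^ q)]
    refine Finset.sum_congr rfl fun e _ => ?_
    rw [nrm_rpow b]
    have : BB A (some e : KK n) = A e.1.1 - A e.1.2 := by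
      unfold BB
      have h : ∀ i, ((tt n (some e) i : ℝ) : ℂ) • A i
          = (if i = e.1.1 then A i else 0) - (if i = e.1.2 then A i else 0) := by
        intro i
        have h0 : tt n (some e) i = (if i = e.1.1 then 1 else 0) - (if i = e.1.2 then 1 else 0) := rfl
        rw [h0]
        push_cast
        rw [sub_smul]
        congr 1
        · split_ifs <;> simp
        · split_ifs <;> simp
      simp_rw [h]
      rw [Finset.sum_sub_distrib]
      simp
    rw [this]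

lemma trAbsPow_smul_unit (b : HilbertBasis ι ℂ H) (i : ι) {p : ℝ} (hp : 0 < p) {c : ℝ}
    (hc : 0 ≤ c) : trAbsPow b p ((c : ℂ) • matUnit b i i) = ENNReal.ofReal (c ^ p) := by
  rw [trAbsPow_smul b (Cpt.of_compact (matUnit_compact b i i)).1 hp, trAbsPow_matUnit b i i hp,
    mul_one, Complex.norm_real, Real.norm_of_nonneg hc]

lemma nrm_smul_unit (b : HilbertBasis ι ℂ H) (i : ι) {p : ℝ} (hp : 0 < p) {c : ℝ}
    (hc : 0 ≤ c) : nrm b p ((c : ℂ) • matUnit b i i) = c := by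
  have h : nrm b p ((c : ℂ) • matUnit b i i)
      = (trAbsPow b p ((c : ℂ) • matUnit b i i)).toReal ^ (1 / p) := rfl
  rw [h, trAbsPow_smul_unit b i hp hc, ENNReal.toReal_ofReal (Real.rpow_nonneg hc _),
    ← Real.rpow_mul hc, mul_one_div_cancel hp.ne', Real.rpow_one]

lemma small_p (b : HilbertBasis ι ℂ H) (i : ι) {p q : ℝ} (hp : 0 < p) (hp1 : p < 1)
    (hpq : 1 / p + 1 / q = 1) :
    ∃ A : Fin 2 → (H →L[ℂ] H), (∀ j, Schatten b p (A j)) ∧ LL b p q A < RR b p q A := by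
  have hq : q < 0 := by
    have h1 : 1 < 1 / p := by rw [lt_div_iff₀ hp]; linarith
    have h2 : 1 / q < 0 := by linarith
    exact one_div_neg.1 h2
  refine ⟨fun j => (((if j = 0 then 1 else 1 / 2 : ℝ)) : ℂ) • matUnit b i i, fun j => ⟨?_, ?_⟩, ?_⟩
  · exact (matUnit_compact b i i).smul _
  · have h : trPow b p ((((if j = 0 then 1 else 1 / 2 : ℝ)) : ℂ) • matUnit b i i)
        = ENNReal.ofReal ((if j = 0 then 1 else 1 / 2 : ℝ) ^ p) :=
      trAbsPow_smul_unit b i hp (by split_ifs <;> norm_num)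
    rw [h]
    exact ENNReal.ofReal_lt_top
  · unfold LL RR
    have hf : univ.filter (fun e : Fin 2 × Fin 2 => e.1 < e.2) = {((0 : Fin 2), (1 : Fin 2))} := by
      decide
    rw [hf, Finset.sum_singleton, Fin.sum_univ_two, Fin.sum_univ_two]
    have e1 : ((((if (0 : Fin 2) = 0 then 1 else 1 / 2 : ℝ)) : ℂ) • matUnit b i i
        + (((if (1 : Fin 2) = 0 then 1 else 1 / 2 : ℝ)) : ℂ) • matUnit b i i)
        = (((3 / 2 : ℝ)) : ℂ) • matUnit b i i := by
      rw [← add_smul]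
      congr 1
      norm_num
    have e2 : ((((if (0 : Fin 2) = 0 then 1 else 1 / 2 : ℝ)) : ℂ) • matUnit b i i
        - (((if (1 : Fin 2) = 0 then 1 else 1 / 2 : ℝ)) : ℂ) • matUnit b i i)
        = (((1 / 2 : ℝ)) : ℂ) • matUnit b i i := by
      rw [← sub_smul]
      congr 1
      norm_num
    rw [e1, e2, nrm_smul_unit b i hp (by norm_num), nrm_smul_unit b i hp (by norm_num),
      nrm_smul_unit b i hp (by norm_num), nrm_smul_unit b i hp (by norm_num)]
    simp only [if_true, Real.one_rpow]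
    have h3 : (1 + (1 / 2 : ℝ) ^ p) ^ (q / p) < 1 := by
      apply Real.rpow_lt_one_of_one_lt_of_neg
      · have : 0 < (1 / 2 : ℝ) ^ p := Real.rpow_pos_of_pos (by norm_num) p
        linarith
      · exact div_neg_of_neg_of_pos hq hp
    have hx : 0 < (3 / 2 : ℝ) ^ q := by positivity
    have hy : 0 < (1 / 2 : ℝ) ^ q := by positivity
    have hxy : 1 < (3 / 2 : ℝ) ^ q * (1 / 2 : ℝ) ^ q := by
      rw [← Real.mul_rpow (by norm_num) (by norm_num)]
      apply Real.one_lt_rpow_of_pos_of_lt_one_of_neg (by norm_num) (by norm_num) hq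
    have h4 : 2 < (3 / 2 : ℝ) ^ q + (1 / 2 : ℝ) ^ q := by
      nlinarith [sq_nonneg ((3 / 2 : ℝ) ^ q - (1 / 2 : ℝ) ^ q)]
    push_cast
    linarith

/-- **Clarkson-type inequalities for `n`-tuples of operators.**  Both questions: `L ≤ R` for
`2 ≤ p < ∞`, and `R ≤ L` for `1 < p ≤ 2` (where `0 < q < ∞`).  For `0 < p < 1` (where `q < 0`) the
second inequality fails. -/
theorem result :
    (∀ (H : Type u) [NormedAddCommGroup H] [InnerProductSpace ℂ H] [CompleteSpace H] (ι : Type v)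
      (b : HilbertBasis ι ℂ H) (n : ℕ) (p q : ℝ) (A : Fin n → (H →L[ℂ] H)),
      2 ≤ p → 1 / p + 1 / q = 1 → (∀ j, Schatten b p (A j)) → LL b p q A ≤ RR b p q A) ∧
    (∀ (H : Type u) [NormedAddCommGroup H] [InnerProductSpace ℂ H] [CompleteSpace H] (ι : Type v)
      (b : HilbertBasis ι ℂ H) (n : ℕ) (p q : ℝ) (A : Fin n → (H →L[ℂ] H)),
      1 < p → p ≤ 2 → 1 / p + 1 / q = 1 → (∀ j, Schatten b p (A j)) → RR b p q A ≤ LL b p q A) ∧
    (∀ (H : Type u) [NormedAddCommGroup H] [InnerProductSpace ℂ H] [CompleteSpace H] (ι : Type v)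
      [Nonempty ι] (b : HilbertBasis ι ℂ H) (p q : ℝ), 0 < p → p < 1 → 1 / p + 1 / q = 1 →
      ∃ A : Fin 2 → (H →L[ℂ] H), (∀ j, Schatten b p (A j)) ∧ LL b p q A < RR b p q A) := by
  refine ⟨?_, ?_, ?_⟩
  · intro H _ _ _ ι b n p q A hp hpq hA
    rw [LL_eq b (by linarith), RR_eq]
    exact q1 b hp hpq A hA
  · intro H _ _ _ ι b n p q A hp1 hp2 hpq hA
    rw [LL_eq b (by linarith), RR_eq]
    exact q2 b hp1 hp2 hpq A hA
  · intro H _ _ _ ι hι b p q hp hp1 hpq
    obtain ⟨i⟩ := hι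
    exact small_p b i hp hp1 hpq

end Pool.Agent.Results.MP_5deb6a_an.ClarksonTuples
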